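import Mathlib
import Pool.Agent.X87.CSD.Factor

/-! # Integral products with one common factor have the same factors -/

set_option autoImplicit false

open Filter Topology Matrix

namespace X87.OP

open H715R2 Pool.Agent.Y327

variable {d : ℕ}

lemma row_eig {g : Matrix (Fin d) (Fin d) ℝ} {A : Matrix (Fin d) (Fin d) ℤ} {c : Fin d → ℝ}
    (h : g * zR A = diagonal c * g) (i : Fin d) : g i ᵥ* zR A = c i • g i := by
  have h1 : g i ᵥ* zR A = (g * zR A) i := by
    funext j
    rw [Matrix.mul_apply]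
    rfl
  rw [h1, h]
  funext j
  rw [Matrix.diagonal_mul]
  rfl

lemma zR_comm {A B : Matrix (Fin d) (Fin d) ℤ} (h : A * B - B * A = 0) :
    zR A * zR B = zR B * zR A := by
  rw [← zR_mul, ← zR_mul, sub_eq_zero.1 h]

/-- **Integral products with a common factor have the same factors.** -/
theorem share_all {g g' : Matrix (Fin d) (Fin d) ℝ} (hg : g.det ≠ 0) (hg' : g'.det ≠ 0)
    {ν : ℝ} (hν : 0 < ν) (hnu : HasNu g ν) {δ δ' : Matrix (Fin d) (Fin d) ℤ} {c c' : Fin d → ℝ}
    (hc : Function.Injective c) (hc' : Function.Injective c')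
    (h : g * zR δ = diagonal c * g) (h' : g' * zR δ' = diagonal c' * g') {i j : Fin d} {s : ℝ}
    (hs : s ≠ 0) (hrow : g' j = s • g i) :
    ∃ σ : Equiv.Perm (Fin d), ∀ l, ∃ a : ℝ, a ≠ 0 ∧ g' l = a • g (σ l) := by
  classical
  have hu : IsUnit g.det := isUnit_iff_ne_zero.2 hg
  have hgg : g * g⁻¹ = 1 := Matrix.mul_nonsing_inv _ hu
  have hgg' : g⁻¹ * g = 1 := Matrix.nonsing_inv_mul _ hu
  have e1 := row_eig h i
  have e2 : g i ᵥ* zR δ' = c' j • g i := by
    have h1 := row_eig h' j
    rw [hrow, Matrix.smul_vecMul, smul_comm] at h1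
    exact smul_right_injective (Fin d → ℝ) hs h1
  have hN : δ * δ' - δ' * δ = 0 := by
    refine row_indep hν hnu i _ ?_
    have h1 : zR (δ * δ' - δ' * δ) = zR δ * zR δ' - zR δ' * zR δ := by
      rw [← zR_mul, ← zR_mul]
      ext a b
      simp [zR]
    rw [h1, Matrix.vecMul_sub, ← Matrix.vecMul_vecMul, ← Matrix.vecMul_vecMul, e1, e2,
      Matrix.smul_vecMul, Matrix.smul_vecMul, e1, e2, smul_comm, sub_self]
  have hcomm := zR_comm hN
  set Y := g * zR δ' * g⁻¹ with hY
  have hYc : Y * diagonal c = diagonal c * Y := by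
    have h1 : diagonal c = g * zR δ * g⁻¹ := by
      rw [h, Matrix.mul_assoc, hgg, Matrix.mul_one]
    rw [h1, hY]
    calc g * zR δ' * g⁻¹ * (g * zR δ * g⁻¹) = g * zR δ' * (g⁻¹ * g) * zR δ * g⁻¹ := by
          simp only [Matrix.mul_assoc]
      _ = g * (zR δ' * zR δ) * g⁻¹ := by
          rw [hgg', Matrix.mul_one]; simp only [Matrix.mul_assoc]
      _ = g * (zR δ * zR δ') * g⁻¹ := by rw [hcomm]
      _ = g * zR δ * (g⁻¹ * g) * zR δ' * g⁻¹ := by
          rw [hgg', Matrix.mul_one]; simp only [Matrix.mul_assoc]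
      _ = g * zR δ * g⁻¹ * (g * zR δ' * g⁻¹) := by simp only [Matrix.mul_assoc]
  have hYd : Y = diagonal (fun m => Y m m) := by
    ext a b
    by_cases hab : a = b
    · subst hab; simp
    · rw [Matrix.diagonal_apply_ne _ hab]
      have h1 := congrFun (congrFun hYc a) b
      rw [Matrix.mul_diagonal, Matrix.diagonal_mul] at h1
      have h2 : Y a b * (c b - c a) = 0 := by linear_combination h1
      rcases mul_eq_zero.1 h2 with h3 | h3
      · exact h3
      · exact absurd (hc (sub_eq_zero.1 h3)).symm hab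
  set y : Fin d → ℝ := fun m => Y m m with hy
  have hgy : g * zR δ' = diagonal y * g := by
    rw [← hYd, hY, Matrix.mul_assoc, hgg', Matrix.mul_one]
  set X := g' * g⁻¹ with hX
  have hXg : g' = X * g := by rw [hX, Matrix.mul_assoc, hgg', Matrix.mul_one]
  have hXdet : X.det ≠ 0 := by
    intro h0
    apply hg'
    rw [hXg, det_mul, h0, zero_mul]
  have hXy : X * diagonal y = diagonal c' * X := by
    have h1 : X * diagonal y * g = diagonal c' * X * g := by
      rw [Matrix.mul_assoc, ← hgy, ← Matrix.mul_assoc, ← hXg, h', Matrix.mul_assoc, ← hXg]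
    have h2 := congrArg (fun Z => Z * g⁻¹) h1
    simpa only [Matrix.mul_assoc, hgg, Matrix.mul_one] using h2
  have hXe : ∀ l m, X l m ≠ 0 → y m = c' l := by
    intro l m hlm
    have h1 := congrFun (congrFun hXy l) m
    rw [Matrix.mul_diagonal, Matrix.diagonal_mul] at h1
    have h2 : X l m * (y m - c' l) = 0 := by linear_combination h1
    exact sub_eq_zero.1 ((mul_eq_zero.1 h2).resolve_left hlm)
  have hex : ∀ l, ∃ m, X l m ≠ 0 := by
    intro l
    by_contra hcon
    push Not at hcon
    exact hXdet (Matrix.det_eq_zero_of_row_eq_zero l hcon)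
  choose m hm using hex
  have hinj : Function.Injective m := by
    intro a b hab
    apply hc'
    rw [← hXe a _ (hm a), ← hXe b _ (hm b), hab]
  have hbij : Function.Bijective m := Finite.injective_iff_bijective.1 hinj
  refine ⟨Equiv.ofBijective m hbij, fun l => ⟨X l (m l), hm l, ?_⟩⟩
  have honly : ∀ b, b ≠ m l → X l b = 0 := by
    intro b hb
    by_contra hne
    obtain ⟨l', rfl⟩ := hbij.2 b
    have h1 := hXe l _ hne
    have h2 := hXe l' _ (hm l')
    have h3 : l' = l := hc' (by rw [← h2, h1])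
    exact hb (by rw [h3])
  funext b
  have h1 : g' l b = ∑ a, X l a * g a b := by
    conv_lhs => rw [hXg]
    rw [Matrix.mul_apply]
  rw [h1, Finset.sum_eq_single (m l) (fun a _ ha => by rw [honly a ha, zero_mul])
    (fun h => absurd (Finset.mem_univ _) h)]
  rfl

end X87.OP
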